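import Mathlib
import Pool.Agent.H16.Gram

set_option autoImplicit false

namespace Pool.Agent.Results.MP_2928c2_al.No

open Pool.Agent.H16.Gram

theorem result (F : Type) [Monoid F] [Finite F] :
    ¬ (∀ u v : List ℕ, u ≠ [] → v ≠ [] → (HoldsG 2 u v ↔ Holds F u v)) ∧
    ¬ (∀ u v : List ℕ, u ≠ [] → v ≠ [] →
      (HoldsG 2 u v ↔ Holds F u v ∧ ∀ (C : Type) [CommMonoid C], Holds C u v)) := by
  obtain ⟨u, v, hu, hv, p, h1, h2⟩ := main F
  exact ⟨fun h => h2 ((h u v hu hv).2 h1), fun h => h2 ((h u v hu hv).2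
    ⟨h1, fun C _ φ => (p.map φ).prod_eq⟩)⟩

end Pool.Agent.Results.MP_2928c2_al.No
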